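import Pool.Agent.H601R2.KPMem

/-!
# Kernel-perfectness of digraphs whose one-way arcs are few: definitions and the reduction
-/

namespace Pool.Agent.Y410.KP

open Pool.Agent.NPC Pool.Agent.NPC.P2 Pool.Agent.NPC.KP

/-- The arc `(u, v)` of `D` is one-way: the opposite arc is absent. -/
def OneWay (D : DG) (u v : ℕ) : Prop := (u, v) ∈ D.2 ∧ (v, u) ∉ D.2

/-- The one-way arcs of `D` are the arcs of a directed Hamiltonian cycle of `D`: the vertices can
be listed as `l₀, …, l_{m-1}`, `m ≥ 3`, such that the one-way arcs are exactly the pairs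
`(l_i, l_{i+1})`, indices modulo `m`. -/
def OneWayHamiltonian (D : DG) : Prop :=
  ∃ l : List ℕ, l.Perm D.1 ∧ 3 ≤ l.length ∧
    ∀ (i j : ℕ) (hi : i < l.length) (hj : j < l.length),
      OneWay D l[i] l[j] ↔ j = (i + 1) % l.length

/-- The one-way arcs of `D` are the arcs of a directed cycle some of whose vertices have been
doubled: the vertices are distributed over the positions `0, …, N - 1`, `N ≥ 3`, every position has
one or two vertices, position `0` has one, and the one-way arcs are exactly the pairs from a vertex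
of a position to a vertex of the next position, modulo `N`. -/
def OneWayDoubled (D : DG) : Prop :=
  ∃ (N : ℕ) (ρ : ℕ → ℕ), 3 ≤ N ∧ (∀ v ∈ D.1, ρ v < N) ∧
    (∀ i < N, 1 ≤ (D.1.filter (fun v => ρ v = i)).length ∧
      (D.1.filter (fun v => ρ v = i)).length ≤ 2) ∧
    (D.1.filter (fun v => ρ v = 0)).length = 1 ∧
    ∀ u ∈ D.1, ∀ v ∈ D.1, (OneWay D u v ↔ ρ v = (ρ u + 1) % N)

/-- KERNEL-PERFECTNESS, restricted to digraphs with the property `C`, is hard for the class `𝒦` of
languages under polynomial-time many-one reductions: all instances produced are digraphs with the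
property `C`. -/
def HardOn (𝒦 : Set (List Bool) → Prop) (C : DG → Prop) : Prop :=
  ∀ L, 𝒦 L → ∃ f : List Bool → List Bool, PolyTime f ∧
    ∀ x, f x ∈ lang (fun D : DG => IsDigraph D ∧ C D) ∧ (x ∈ L ↔ f x ∈ lang KernelPerfect)

/-- The language `L₀` solves KERNEL-PERFECTNESS correctly on the digraphs with the property `C`. -/
def Solves (L₀ : Set (List Bool)) (C : DG → Prop) : Prop :=
  ∀ D : DG, IsDigraph D → C D → (bits D ∈ L₀ ↔ KernelPerfect D)

/-! ### The digraph of an instance, with few doubled positions -/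

/-- The vertices kept: one of the two copies of a position, both copies at the stops of the tracks
of the existential variables. -/
def keep (I : Inst) (v : ℕ) : Prop := v % 2 = 0 ∨ (tr I v < I.1.length ∧ of I v = 3)

open Classical in
/-- The list of vertices. -/
noncomputable def vs (I : Inst) : List ℕ := (List.range (nv I)).filter (fun v => decide (keep I v))

open Classical in
/-- The digraph of an instance. -/
noncomputable def red' (I : Inst) : DG :=
  (vs I, (vs I ×ˢ vs I).filter (fun e => decide (arc I e.1 e.2)))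

theorem mem_vs {I : Inst} {v : ℕ} : v ∈ vs I ↔ v < nv I ∧ keep I v := by
  simp [vs]

theorem mem_red' {I : Inst} {u v : ℕ} :
    (u, v) ∈ (red' I).2 ↔ (u ∈ vs I ∧ v ∈ vs I) ∧ arc I u v := by
  simp only [red', List.mem_filter, List.mem_product, decide_eq_true_eq]

theorem nodup_vs (I : Inst) : (vs I).Nodup := List.Nodup.filter _ List.nodup_range

theorem isDigraph_red' (I : Inst) : IsDigraph (red' I) := by
  refine ⟨nodup_vs I, ?_, ?_⟩
  · exact List.Nodup.filter _ (List.Nodup.product (nodup_vs I) (nodup_vs I))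
  · rintro ⟨u, v⟩ he
    obtain ⟨⟨h1, h2⟩, h3⟩ := mem_red'.1 he
    exact ⟨h1, h2, h3.1⟩

theorem isKernelOf_iff' (I : Inst) {S K : Finset ℕ} (hS : ∀ v ∈ S, v ∈ vs I) :
    IsKernelOf (red' I) S K ↔ IsKernel (arc I) S K := by
  have key : ∀ u v, u ∈ S → v ∈ S → ((u, v) ∈ (red' I).2 ↔ arc I u v) := by
    intro u v hu hv
    rw [mem_red']
    exact ⟨fun h => h.2, fun h => ⟨⟨hS u hu, hS v hv⟩, h⟩⟩
  unfold IsKernelOf IsKernel
  constructor
  · rintro ⟨h1, h2, h3⟩
    refine ⟨h1, fun u hu v hv h => h2 u hu v hv ((key u v (h1 hu) (h1 hv)).2 h), ?_⟩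
    intro u hu huK
    obtain ⟨v, hv, h⟩ := h3 u hu huK
    exact ⟨v, hv, (key u v hu (h1 hv)).1 h⟩
  · rintro ⟨h1, h2, h3⟩
    refine ⟨h1, fun u hu v hv h => h2 u hu v hv ((key u v (h1 hu) (h1 hv)).1 h), ?_⟩
    intro u hu huK
    obtain ⟨v, hv, h⟩ := h3 u hu huK
    exact ⟨v, hv, (key u v hu (h1 hv)).2 h⟩

theorem easy' (I : Inst) (h : ¬ S2.EA I) : KernelPerfect (red' I) := by
  refine ⟨isDigraph_red' I, fun S hS => ?_⟩
  have hS1 : ∀ v ∈ S, v ∈ vs I := hS
  have hS2 : ∀ v ∈ S, v < nv I := fun v hv => (mem_vs.1 (hS1 v hv)).1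
  obtain ⟨K, hK⟩ := (easy_direction I h).2 S (fun v hv => List.mem_range.2 (hS2 v hv))
  exact ⟨K, (isKernelOf_iff' I hS1).2 ((isKernelOf_iff I hS2).1 hK)⟩

theorem three_lt_L (I : Inst) : 3 < (ring I).L := by
  have h2 := (ring I).g_ge
  have h3 := (ring I).L_eq
  omega

theorem hard' (I : Inst) (h : S2.EA I) : ¬ KernelPerfect (red' I) := by
  classical
  rintro ⟨_, hKP⟩
  obtain ⟨Y, hY⟩ := h
  let S : Finset ℕ := (Finset.range (nv I)).filter
    (fun v => keep I v ∧ (tr I v < I.1.length → of I v = 3 → co v = Y (tr I v)))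
  have hSvs : ∀ v ∈ S, v ∈ vs I := fun v hv =>
    mem_vs.2 ⟨Finset.mem_range.1 (Finset.mem_filter.1 hv).1, (Finset.mem_filter.1 hv).2.1⟩
  have hSlt : ∀ v ∈ S, v < nv I := fun v hv => Finset.mem_range.1 (Finset.mem_filter.1 hv).1
  obtain ⟨K, hK⟩ := hKP S hSvs
  rw [isKernelOf_iff' I hSvs] at hK
  have hS : ∀ v ∈ S, tr I v < (ring I).R ∧ of I v < (ring I).L := fun v hv =>
    lt_of_lt I (hSlt v hv)
  have hfull : ∀ r < (ring I).R, ∀ o < (ring I).L, ∃ v ∈ S, tr I v = r ∧ of I v = o := by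
    intro r hr o ho
    by_cases hc : r < I.1.length ∧ o = 3
    · refine ⟨vx I r o (Y r), Finset.mem_filter.2 ⟨Finset.mem_range.2 (vx_lt I _ hr ho), ?_, ?_⟩,
        tr_vx I _ ho, of_vx I _ ho⟩
      · right
        rw [tr_vx I _ ho, of_vx I _ ho]
        exact hc
      · intro _ _
        rw [co_vx, tr_vx I _ ho]
    · refine ⟨vx I r o false, Finset.mem_filter.2 ⟨Finset.mem_range.2 (vx_lt I _ hr ho), ?_, ?_⟩,
        tr_vx I _ ho, of_vx I _ ho⟩
      · left
        unfold vx
        simp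
      · intro h1 h2
        rw [tr_vx I _ ho] at h1
        rw [of_vx I _ ho] at h2
        exact absurd ⟨h1, h2⟩ hc
  have hcf : ∀ u v, cf I u v → (ring I).stop (tr I u) (of I u) ∧
      (ring I).stop (tr I v) (of I v) := fun u v h => ⟨h.1, h.2.1⟩
  have hst := Ring.all_stops hS hfull hcf hK
  have hnocf : ∀ u ∈ K, ∀ v ∈ K, ¬ cf I u v := by
    intro u hu v hv hc
    refine hK.2.1 u hu v hv ⟨?_, by tauto⟩
    rintro rfl
    rcases hc.2.2 with h | h
    · exact h.2 rfl
    · have h1 := lab_mem I hc.1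
      rw [trk_var I h.1, List.mem_singleton] at h1
      rw [h1] at h
      simp at h
  obtain ⟨t, ht, hl⟩ := hY (fun i => decide (∃ v ∈ K, (ring I).stop (tr I v) (of I v) ∧
    lab I v = (false, i + 1)))
  obtain ⟨j, hj, rfl⟩ := List.getElem_of_mem ht
  obtain ⟨o, ⟨w, hw, hw1, hw2⟩, hst2⟩ := hst (I.1.length + j) (by
    change _ < (trk I).length
    rw [trk_length]
    omega)
  have hwst : (ring I).stop (tr I w) (of I w) := by rw [hw1, hw2]; exact hst2
  have h1 := lab_mem I hwst
  rw [hw1, trk_term I hj, List.mem_map] at h1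
  obtain ⟨⟨b, i⟩, hbi, hlab⟩ := h1
  have h2 := hl _ hbi
  simp only at h2 hlab
  unfold S2.mix at h2
  split_ifs at h2 with hi
  · obtain ⟨o', ⟨x, hx, hx1, hx2⟩, hst3⟩ := hst i (by
      change _ < (trk I).length
      rw [trk_length]
      omega)
    have hxst : (ring I).stop (tr I x) (of I x) := by rw [hx1, hx2]; exact hst3
    have h3 := stop_single I (trk_var I hi) hst3
    refine hnocf x hx w hw ⟨hxst, hwst, Or.inr ⟨by rw [hx1]; exact hi, ?_, ?_⟩⟩
    · rw [← hlab, hx1]
    · rw [← hlab]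
      have h4 := (Finset.mem_filter.1 (hK.1 hx)).2.2 (by rw [hx1]; exact hi) (by rw [hx2, h3])
      rw [h4, hx1]
      exact h2.symm
  · cases b with
    | false =>
      have := of_decide_eq_false h2
      exact this ⟨w, hw, hwst, hlab.symm⟩
    | true =>
      obtain ⟨x, hx, hxst, hx1⟩ := of_decide_eq_true h2
      refine hnocf x hx w hw ⟨hxst, hwst, Or.inl ⟨?_, ?_⟩⟩
      · rw [hx1, ← hlab]
      · rw [hx1, ← hlab]
        simp

theorem red'_correct (I : Inst) : S2.EA I ↔ ¬ KernelPerfect (red' I) :=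
  ⟨hard' I, fun h => by
    by_contra h'
    exact h (easy' I h')⟩

/-! ### Polynomial time -/

theorem pp_keep {α : Type} [TEnc α] {I : α → Inst} {v : α → ℕ} (hI : Poly I) (hv : Poly v) :
    PP (fun a => keep (I a) (v a)) :=
  PP.or (PP.eq (Poly.mod hv (NPC.Poly.const 2)) (NPC.Poly.const 0))
    (PP.and (PP.lt (poly_tr hI hv) (Poly.length (Poly.fst hI)))
      (PP.eq (poly_of hI hv) (NPC.Poly.const 3)))

theorem poly_vs : Poly vs := by
  classical
  unfold vs
  exact PP.filter (r := fun (I : Inst) (v : ℕ) => keep I v) (u_nv Poly.id).range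
    (pp_keep (Poly.fst Poly.id) (Poly.snd Poly.id))

theorem poly_red' : Poly red' := by
  classical
  unfold red'
  refine Poly.pair poly_vs ?_
  exact PP.filter (r := fun (I : Inst) (e : ℕ × ℕ) => arc I e.1 e.2)
    (R671.poly_product poly_vs poly_vs)
    (pp_arc (Poly.fst Poly.id) (Poly.fst (Poly.snd Poly.id)) (Poly.snd (Poly.snd Poly.id)))

end Pool.Agent.Y410.KP
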