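import Pool.Agent.Y410.KPA

/-!
# The one-way arcs of the digraph of an instance
-/

namespace Pool.Agent.Y410.KP

open Pool.Agent.NPC Pool.Agent.NPC.P2 Pool.Agent.NPC.KP

/-- The one-way arcs are the forward arcs. -/
theorem oneway_fwd (A : Ring) {α : Type*} (tr of : α → ℕ) (cf : α → α → Prop)
    (hcf : ∀ u v, cf u v → A.stop (tr u) (of u) ∧ A.stop (tr v) (of v)) {u v : α}
    (hu : tr u < A.R ∧ of u < A.L) (hv : tr v < A.R ∧ of v < A.L) :
    (A.arc tr of cf u v ∧ ¬ A.arc tr of cf v u) ↔ A.fwd (tr u) (of u) (tr v) (of v) := by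
  have hg := A.g_ge
  have hd := A.d_ge
  have hL := A.L_eq
  have hn1 := A.nx_ne hu.1
  have hn2 := A.nx_ne hv.1
  constructor
  · rintro ⟨⟨hne, h⟩, h'⟩
    by_contra hf
    apply h'
    refine ⟨hne.symm, Or.inr ?_⟩
    rcases h with h | h | h | h | h | h | h | h
    · exact absurd h hf
    · exact Or.inr (Or.inl h)
    · exact Or.inl h
    · exact Or.inr (Or.inr (Or.inl ⟨h.1.symm, h.2.symm⟩))
    · exact Or.inr (Or.inr (Or.inr (Or.inr (Or.inl h))))
    · exact Or.inr (Or.inr (Or.inr (Or.inl h)))
    · exact Or.inr (Or.inr (Or.inr (Or.inr (Or.inr (Or.inr h)))))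
    · exact Or.inr (Or.inr (Or.inr (Or.inr (Or.inr (Or.inl h)))))
  · intro hf
    have hne : u ≠ v := by
      rintro rfl
      rcases hf with ⟨h1, h2⟩ | ⟨h1, h2, h3⟩
      · omega
      · omega
    refine ⟨⟨hne, Or.inl hf⟩, ?_⟩
    rintro ⟨_, h⟩
    have hst : ∀ x : α, A.stop (tr x) (of x) → 3 ≤ of x ∧ of x ≤ 3 * A.M ∧ of x % 3 = 0 :=
      fun x hx => A.stop_lt hx
    rcases hf with ⟨h1, h2⟩ | ⟨h1, h2, h3⟩
    · rcases h with h | h | h | h | h | h | h | h
      · rcases h with ⟨_, h⟩ | ⟨h, _⟩
        · omega
        · omega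
      · rcases h with ⟨_, h, _⟩ | ⟨h, _⟩
        · omega
        · omega
      · rcases h with ⟨_, h, _⟩ | ⟨h, _⟩
        · omega
        · omega
      · omega
      · have := h.2.2.1
        omega
      · have := h.2.2.1
        omega
      · obtain ⟨h4, h5⟩ := hcf _ _ h
        have := hst _ h4
        have := hst _ h5
        omega
      · obtain ⟨h4, h5⟩ := hcf _ _ h
        have := hst _ h4
        have := hst _ h5
        omega
    · rcases h with h | h | h | h | h | h | h | h
      · rcases h with ⟨h4, h⟩ | ⟨h, h4, h5⟩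
        · omega
        · omega
      · rcases h with ⟨h4, h⟩ | ⟨h, h4, h5⟩
        · omega
        · omega
      · rcases h with ⟨h4, h⟩ | ⟨h, h4, h5⟩
        · omega
        · omega
      · omega
      · have := h.1
        omega
      · have := A.stop_lt h.2.2.2
        omega
      · have := hst _ (hcf _ _ h).1
        omega
      · have := hst _ (hcf _ _ h).2
        omega

/-- Number of positions. -/
noncomputable def np (I : Inst) : ℕ := (ring I).R * (ring I).L

theorem half_lt {I : Inst} {v : ℕ} (h : v < nv I) : v / 2 < np I := by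
  unfold nv at h
  unfold np
  omega

theorem oneWay_iff {I : Inst} {u v : ℕ} (hu : u ∈ vs I) (hv : v ∈ vs I) :
    OneWay (red' I) u v ↔ v / 2 = (u / 2 + 1) % np I := by
  have hu' := (mem_vs.1 hu).1
  have hv' := (mem_vs.1 hv).1
  have h1 : OneWay (red' I) u v ↔ (arc I u v ∧ ¬ arc I v u) := by
    unfold OneWay
    rw [mem_red', mem_red']
    constructor
    · rintro ⟨h2, h3⟩
      exact ⟨h2.2, fun h => h3 ⟨⟨hv, hu⟩, h⟩⟩
    · rintro ⟨h2, h3⟩
      exact ⟨⟨⟨hu, hv⟩, h2⟩, fun h => h3 h.2⟩
  rw [h1]
  unfold arc
  rw [oneway_fwd (ring I) (tr I) (of I) (cf I) (fun u v h => ⟨h.1, h.2.1⟩) (lt_of_lt I hu')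
    (lt_of_lt I hv')]
  have hp := half_lt hu'
  have hq := half_lt hv'
  have hLp := L_pos I
  obtain ⟨hr1, ho1⟩ := lt_of_lt I hu'
  obtain ⟨hr2, ho2⟩ := lt_of_lt I hv'
  have e1 : u / 2 = tr I u * (ring I).L + of I u := by
    have := Nat.div_add_mod (u / 2) (ring I).L
    rw [Nat.mul_comm] at this
    exact this.symm
  have e2 : v / 2 = tr I v * (ring I).L + of I v := by
    have := Nat.div_add_mod (v / 2) (ring I).L
    rw [Nat.mul_comm] at this
    exact this.symm
  have uniq : ∀ r o r' o' : ℕ, o < (ring I).L → o' < (ring I).L →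
      r * (ring I).L + o = r' * (ring I).L + o' → r = r' ∧ o = o' := by
    intro r o r' o' ho ho' h
    have h1 : (r * (ring I).L + o) / (ring I).L = r := by
      rw [Nat.mul_comm, Nat.mul_add_div hLp, Nat.div_eq_of_lt ho, Nat.add_zero]
    have h2 : (r' * (ring I).L + o') / (ring I).L = r' := by
      rw [Nat.mul_comm, Nat.mul_add_div hLp, Nat.div_eq_of_lt ho', Nat.add_zero]
    have : r = r' := by rw [← h1, ← h2, h]
    subst this
    exact ⟨rfl, by omega⟩
  have hnp : np I = (ring I).R * (ring I).L := rfl
  rw [e1] at hp ⊢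
  rw [e2] at hq ⊢
  by_cases hw : of I u + 1 < (ring I).L
  · -- same track
    have hlt : tr I u * (ring I).L + of I u + 1 < np I := by
      have := Nat.mul_le_mul_right (ring I).L hr1
      rw [Nat.succ_mul] at this
      omega
    rw [Nat.mod_eq_of_lt hlt]
    constructor
    · rintro (⟨h2, h3⟩ | ⟨h2, h3, h4⟩)
      · rw [h2, h3]
        ring
      · omega
    · intro h
      have := uniq (tr I v) (of I v) (tr I u) (of I u + 1) ho2 hw (by rw [h]; ring)
      exact Or.inl this
  · have hoL : of I u + 1 = (ring I).L := by omega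
    have e3 : tr I u * (ring I).L + of I u + 1 = (tr I u + 1) * (ring I).L := by
      rw [Nat.add_mul, Nat.one_mul]
      omega
    rw [e3]
    by_cases hR : tr I u + 1 = (ring I).R
    · rw [hR, hnp, Nat.mod_self]
      constructor
      · rintro (⟨h2, h3⟩ | ⟨h2, h3, h4⟩)
        · omega
        · unfold Ring.nx at h2
          rw [if_pos hR] at h2
          rw [h2, h4]
          simp
      · intro h
        have := uniq (tr I v) (of I v) 0 0 ho2 hLp (by rw [h]; simp)
        refine Or.inr ⟨?_, hoL, this.2⟩
        unfold Ring.nx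
        rw [if_pos hR]
        exact this.1
    · have hlt : (tr I u + 1) * (ring I).L < np I := by
        rw [hnp]
        exact Nat.mul_lt_mul_of_pos_right (by omega) hLp
      rw [Nat.mod_eq_of_lt hlt]
      constructor
      · rintro (⟨h2, h3⟩ | ⟨h2, h3, h4⟩)
        · omega
        · unfold Ring.nx at h2
          rw [if_neg hR] at h2
          rw [h2, h4]
          simp
      · intro h
        have := uniq (tr I v) (of I v) (tr I u + 1) 0 ho2 hLp (by rw [h]; simp)
        refine Or.inr ⟨?_, hoL, this.2⟩
        unfold Ring.nx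
        rw [if_neg hR]
        exact this.1

theorem three_le_np (I : Inst) : 3 ≤ np I := by
  have h1 := three_lt_L I
  have h2 := (ring I).hR
  unfold np
  nlinarith

theorem two_mul_mem {I : Inst} {i : ℕ} (hi : i < np I) : 2 * i ∈ vs I := by
  rw [mem_vs]
  constructor
  · unfold nv
    unfold np at hi
    omega
  · left
    omega

theorem oneWayDoubled (I : Inst) : OneWayDoubled (red' I) := by
  refine ⟨np I, fun v => v / 2, three_le_np I, fun v hv => half_lt (mem_vs.1 hv).1, ?_, ?_,
    fun u hu v hv => oneWay_iff hu hv⟩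
  · intro i hi
    constructor
    · apply List.length_pos_of_mem (a := 2 * i)
      rw [List.mem_filter]
      refine ⟨two_mul_mem hi, ?_⟩
      simp
    · have hsub : (List.filter (fun v => decide (v / 2 = i)) (red' I).1).Subperm
          [2 * i, 2 * i + 1] := by
        apply List.subperm_of_subset ((nodup_vs I).filter _)
        intro x hx
        rw [List.mem_filter] at hx
        have := of_decide_eq_true hx.2
        simp only [List.mem_cons, List.not_mem_nil, or_false]
        omega
      simpa using hsub.length_le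
  · have hsub : (List.filter (fun v => decide (v / 2 = 0)) (red' I).1).Subperm [0] := by
      apply List.subperm_of_subset ((nodup_vs I).filter _)
      intro x hx
      rw [List.mem_filter] at hx
      have h1 := of_decide_eq_true hx.2
      have h2 := (mem_vs.1 hx.1).2
      simp only [List.mem_cons, List.not_mem_nil, or_false]
      rcases h2 with h2 | ⟨_, h2⟩
      · omega
      · unfold of at h2
        rw [h1] at h2
        simp at h2
    have h1 : (List.filter (fun v => decide (v / 2 = 0)) (red' I).1).length ≤ 1 := by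
      simpa using hsub.length_le
    have h2 : 0 < (List.filter (fun v => decide (v / 2 = 0)) (red' I).1).length := by
      apply List.length_pos_of_mem (a := 0)
      rw [List.mem_filter]
      refine ⟨?_, by simp⟩
      have h3 := two_mul_mem (I := I) (i := 0) (by have := three_le_np I; omega)
      rw [Nat.mul_zero] at h3
      exact h3
    exact le_antisymm h1 h2

theorem oneWayHamiltonian (I : Inst) (hI : I.1 = []) : OneWayHamiltonian (red' I) := by
  have hkeep : ∀ v, v ∈ vs I ↔ ∃ i < np I, 2 * i = v := by
    intro v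
    constructor
    · intro hv
      have h1 := mem_vs.1 hv
      rcases h1.2 with h2 | h2
      · exact ⟨v / 2, half_lt h1.1, by omega⟩
      · rw [hI] at h2
        simp at h2
    · rintro ⟨i, hi, rfl⟩
      exact two_mul_mem hi
  refine ⟨(List.range (np I)).map (fun i => 2 * i), ?_, ?_, ?_⟩
  · rw [List.perm_ext_iff_of_nodup]
    · intro v
      rw [List.mem_map]
      change _ ↔ v ∈ vs I
      rw [hkeep]
      simp only [List.mem_range]
    · exact List.nodup_range.map (fun a b h => by
        have h : 2 * a = 2 * b := h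
        omega)
    · exact nodup_vs I
  · simpa using three_le_np I
  · intro i j hi hj
    simp only [List.length_map, List.length_range] at hi hj
    rw [List.getElem_map, List.getElem_map, List.getElem_range, List.getElem_range,
      oneWay_iff (two_mul_mem hi) (two_mul_mem hj), List.length_map, List.length_range,
      Nat.mul_div_cancel_left _ (by norm_num), Nat.mul_div_cancel_left _ (by norm_num)]

/-! ### Hardness -/

theorem hardOn_doubled : HardOn InPi2 OneWayDoubled := by
  intro L hL
  obtain ⟨g, hg, _, hgL⟩ := S2.hardS2_EA _ hL.compl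
  have hf : PC (fun x : List Bool => x) (bits : DG → List Bool) (fun x => red' (g x)) :=
    PC.comp poly_red' hg
  refine ⟨fun x => bits (red' (g x)), PC.toPolyTime hf, fun x => ⟨?_, ?_⟩⟩
  · exact ⟨_, rfl, isDigraph_red' _, oneWayDoubled _⟩
  · have h1 := hgL x
    rw [Set.mem_compl_iff] at h1
    have h2 := red'_correct (g x)
    rw [bits_mem_lang]
    tauto

/-- The instance without existential variables of a conjunctive normal form. -/
def inst (φ : List (List (Bool × ℕ))) : Inst := ([], [], S2.negDNF φ)

theorem poly_inst : Poly inst := by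
  refine Poly.pair (NPC.Poly.const _) (Poly.pair (NPC.Poly.const _) ?_)
  exact NPC.Poly.map (F := fun (_ : List (List (Bool × ℕ))) (c : List (Bool × ℕ)) =>
      c.map (fun l => (!l.1, l.2))) NPC.Poly.id (NPC.Poly.map (F := fun (_ : List (List (Bool × ℕ)) ×
        List (Bool × ℕ)) (l : Bool × ℕ) => (!l.1, l.2)) (Poly.snd Poly.id)
        (Poly.pair (Poly.not (Poly.fst (Poly.snd Poly.id))) (Poly.snd (Poly.snd Poly.id))))

theorem inst_iff (φ : List (List (Bool × ℕ))) : SAT φ ↔ KernelPerfect (red' (inst φ)) := by
  have h1 := red'_correct (inst φ)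
  have h2 : S2.EA (inst φ) ↔ ¬ SAT φ := by
    have hmix : ∀ Y X : ℕ → Bool, ∀ v, S2.mix 0 Y X v = X v := by
      intro Y X v
      simp [S2.mix]
    unfold S2.EA SAT SatV inst
    simp only [List.length_nil, hmix]
    constructor
    · rintro ⟨_, h⟩ ⟨X, hX⟩
      exact (S2.negDNF_iff.1 (h X)) hX
    · intro h
      exact ⟨fun _ => false, fun X => S2.negDNF_iff.2 fun hX => h ⟨X, hX⟩⟩
  tauto

theorem hardOn_hamiltonian : HardOn InNP OneWayHamiltonian := by
  intro L hL
  obtain ⟨g, hg, hgL⟩ := hardI_SAT L hL
  have hf : PC (fun x : List Bool => x) (bits : DG → List Bool) (fun x => red' (inst (g x))) :=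
    PC.comp (g := fun φ => red' (inst φ)) (f := g) (NPC.Poly.comp poly_red' poly_inst) hg
  refine ⟨fun x => bits (red' (inst (g x))), PC.toPolyTime hf, fun x => ⟨?_, ?_⟩⟩
  · exact ⟨_, rfl, isDigraph_red' _, oneWayHamiltonian _ rfl⟩
  · rw [bits_mem_lang, hgL x]
    exact inst_iff (g x)

end Pool.Agent.Y410.KP
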