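import Pool.Agent.Y410.KPB

/-!
# Membership in `NP`, and the consequences
-/

namespace Pool.Agent.Y410.KP

open Pool.Agent.NPC Pool.Agent.NPC.P2 Pool.Agent.NPC.KP

/-- If the one-way arcs of `D` raise a position by one modulo `N` and no vertex of `S` has the
position `p`, then the subdigraph induced by `S` has a kernel. -/
theorem kernel_of_missing {D : DG} (hD : IsDigraph D) {N : ℕ} {ρ : ℕ → ℕ}
    (hρ : ∀ v ∈ D.1, ρ v < N) (harc : ∀ u ∈ D.1, ∀ v ∈ D.1, OneWay D u v → ρ v = (ρ u + 1) % N)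
    {p : ℕ} (hp : p < N) {S : Finset ℕ} (hS : ∀ v ∈ S, v ∈ D.1 ∧ ρ v ≠ p) :
    ∃ K : Finset ℕ, IsKernelOf D S K := by
  have h := duchet (fun u v => (u, v) ∈ D.2) (fun u h => (hD.2.2 _ h).2.2 rfl)
    (fun v => (ρ v + N - p) % N) S.card S rfl ?_
  · obtain ⟨K, h1, h2, h3⟩ := h
    exact ⟨K, h1, h2, h3⟩
  · intro u hu v hv huv
    by_cases hvu : (v, u) ∈ D.2
    · exact Or.inl hvu
    · right
      obtain ⟨hu1, hu2⟩ := hS u hu
      obtain ⟨hv1, hv2⟩ := hS v hv
      have h1 := harc u hu1 v hv1 ⟨huv, hvu⟩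
      have h2 := hρ u hu1
      have h3 := hρ v hv1
      change (ρ u + N - p) % N < (ρ v + N - p) % N
      by_cases hw : ρ u + 1 = N
      · rw [hw, Nat.mod_self] at h1
        rw [h1] at hv2 ⊢
        have e1 : (ρ u + N - p) % N = ρ u - p := by
          rw [show ρ u + N - p = (ρ u - p) + N by omega, Nat.add_mod_right,
            Nat.mod_eq_of_lt (by omega)]
        have e2 : (0 + N - p) % N = N - p := by
          rw [Nat.zero_add, Nat.mod_eq_of_lt (by omega)]
        rw [e1, e2]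
        omega
      · rw [Nat.mod_eq_of_lt (by omega)] at h1
        rw [h1] at hv2 ⊢
        by_cases hc : ρ u < p
        · have e1 : (ρ u + N - p) % N = ρ u + N - p := Nat.mod_eq_of_lt (by omega)
          have e2 : (ρ u + 1 + N - p) % N = ρ u + 1 + N - p := Nat.mod_eq_of_lt (by omega)
          rw [e1, e2]
          omega
        · have e1 : (ρ u + N - p) % N = ρ u - p := by
            rw [show ρ u + N - p = (ρ u - p) + N by omega, Nat.add_mod_right,
              Nat.mod_eq_of_lt (by omega)]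
          have e2 : (ρ u + 1 + N - p) % N = ρ u + 1 - p := by
            rw [show ρ u + 1 + N - p = (ρ u + 1 - p) + N by omega, Nat.add_mod_right,
              Nat.mod_eq_of_lt (by omega)]
          rw [e1, e2]
          omega

/-- Deleting a suitable vertex leaves a kernel-perfect digraph. -/
theorem near_perfect {D : DG} (hD : IsDigraph D) (h : OneWayDoubled D) :
    ∃ v ∈ D.1, ∀ S : Finset ℕ, (∀ u ∈ S, u ∈ D.1 ∧ u ≠ v) → ∃ K : Finset ℕ, IsKernelOf D S K := by
  obtain ⟨N, ρ, hN, h1, h2, h3, h4⟩ := h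
  obtain ⟨v, hv⟩ := List.length_eq_one_iff.1 h3
  have hv1 : v ∈ D.1.filter (fun v => decide (ρ v = 0)) := by rw [hv]; simp
  refine ⟨v, (List.mem_filter.1 hv1).1, fun S hS => ?_⟩
  refine kernel_of_missing hD h1 (fun u hu v hv => (h4 u hu v hv).1) (p := 0) (by omega)
    fun u hu => ⟨(hS u hu).1, fun h0 => (hS u hu).2 ?_⟩
  have : u ∈ D.1.filter (fun v => decide (ρ v = 0)) :=
    List.mem_filter.2 ⟨(hS u hu).1, by simpa using h0⟩
  rw [hv] at this
  simpa using this

/-- If the one-way arcs form a Hamiltonian cycle, then it is enough that the whole digraph has a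
kernel. -/
theorem kernelPerfect_iff_kernel {D : DG} (hD : IsDigraph D) (h : OneWayHamiltonian D) :
    KernelPerfect D ↔ ∃ K : Finset ℕ, IsKernelOf D D.1.toFinset K := by
  obtain ⟨l, hl, hl3, harc⟩ := h
  constructor
  · rintro ⟨_, h⟩
    exact h _ (fun v hv => List.mem_toFinset.1 hv)
  · intro h
    refine ⟨hD, fun S hS => ?_⟩
    by_cases hall : ∀ v ∈ D.1, v ∈ S
    · have : S = D.1.toFinset := by
        ext v
        rw [List.mem_toFinset]
        exact ⟨hS v, hall v⟩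
      rw [this]
      exact h
    · push Not at hall
      obtain ⟨v₀, hv₀, hv₀S⟩ := hall
      have hmem : ∀ v, v ∈ D.1 ↔ v ∈ l := fun v => hl.symm.mem_iff
      have hlt : ∀ v ∈ D.1, l.idxOf v < l.length := fun v hv =>
        List.idxOf_lt_length_of_mem ((hmem v).1 hv)
      refine kernel_of_missing hD (N := l.length) (ρ := fun v => l.idxOf v) hlt ?_
        (p := l.idxOf v₀) (hlt _ hv₀) ?_
      · intro u hu v hv huv
        have h1 := harc (l.idxOf u) (l.idxOf v) (hlt u hu) (hlt v hv)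
        rw [List.getElem_idxOf (hlt u hu), List.getElem_idxOf (hlt v hv)] at h1
        exact h1.1 huv
      · intro v hv
        refine ⟨hS v hv, fun h0 => hv₀S ?_⟩
        have h1 : v = v₀ := by
          have h2 := List.getElem_idxOf (hlt v (hS v hv))
          have h3 := List.getElem_idxOf (hlt v₀ hv₀)
          have h0' : l.idxOf v = l.idxOf v₀ := h0
          rw [← h2, ← h3]
          simp only [h0']
        rw [← h1]
        exact hv

/-- The relation verified in polynomial time: `w.1` is the cyclic order, `w.2` the kernel. -/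
def Cert (z : DG × (List ℕ × List ℕ)) : Prop :=
  IsDigraph z.1 ∧ (z.2.1.Nodup ∧ (∀ x ∈ z.2.1, x ∈ z.1.1) ∧ (∀ x ∈ z.1.1, x ∈ z.2.1)) ∧
    3 ≤ z.2.1.length ∧
    (∀ p ∈ z.2.1.zipIdx, ∀ q ∈ z.2.1.zipIdx,
      (((p.1, q.1) ∈ z.1.2 ∧ (q.1, p.1) ∉ z.1.2) ∧ q.2 = (p.2 + 1) % z.2.1.length) ∨
      (¬ ((p.1, q.1) ∈ z.1.2 ∧ (q.1, p.1) ∉ z.1.2) ∧ q.2 ≠ (p.2 + 1) % z.2.1.length)) ∧
    (∀ x ∈ z.2.2, ∀ y ∈ z.2.2, x ∈ z.1.1 ∧ (x, y) ∉ z.1.2) ∧
    ∀ x ∈ z.1.1, x ∈ z.2.2 ∨ ∃ y ∈ z.2.2, (x, y) ∈ z.1.2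

theorem pp_Cert : PP Cert := by
  have hD : Poly (fun z : DG × (List ℕ × List ℕ) => z.1) := Poly.fst NPC.Poly.id
  have hV : Poly (fun z : DG × (List ℕ × List ℕ) => z.1.1) := Poly.fst hD
  have hE : Poly (fun z : DG × (List ℕ × List ℕ) => z.1.2) := Poly.snd hD
  have hl : Poly (fun z : DG × (List ℕ × List ℕ) => z.2.1) := Poly.fst (Poly.snd NPC.Poly.id)
  have hK : Poly (fun z : DG × (List ℕ × List ℕ) => z.2.2) := Poly.snd (Poly.snd NPC.Poly.id)
  have hz : Poly (fun z : DG × (List ℕ × List ℕ) => z.2.1.zipIdx) := Poly.zipIdx hl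
  refine PP.and (pp_isDigraph hD) (PP.and (PP.and (PP.nodup hl) (PP.and ?_ ?_))
    (PP.and (PP.le (NPC.Poly.const 3) (Poly.length hl)) (PP.and ?_ (PP.and ?_ ?_))))
  · exact PP.ball (r := fun (z : DG × (List ℕ × List ℕ)) x => x ∈ z.1.1) hl
      (PP.mem (Poly.snd NPC.Poly.id) (hV.comp (Poly.fst NPC.Poly.id)))
  · exact PP.ball (r := fun (z : DG × (List ℕ × List ℕ)) x => x ∈ z.2.1) hV
      (PP.mem (Poly.snd NPC.Poly.id) (hl.comp (Poly.fst NPC.Poly.id)))
  · refine PP.ball (r := fun (z : DG × (List ℕ × List ℕ)) (p : ℕ × ℕ) => ∀ q ∈ z.2.1.zipIdx,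
      (((p.1, q.1) ∈ z.1.2 ∧ (q.1, p.1) ∉ z.1.2) ∧ q.2 = (p.2 + 1) % z.2.1.length) ∨
      (¬ ((p.1, q.1) ∈ z.1.2 ∧ (q.1, p.1) ∉ z.1.2) ∧ q.2 ≠ (p.2 + 1) % z.2.1.length)) hz ?_
    refine PP.ball (l := fun w : (DG × (List ℕ × List ℕ)) × (ℕ × ℕ) => w.1.2.1.zipIdx)
      (r := fun (w : (DG × (List ℕ × List ℕ)) × (ℕ × ℕ)) (q : ℕ × ℕ) =>
      (((w.2.1, q.1) ∈ w.1.1.2 ∧ (q.1, w.2.1) ∉ w.1.1.2) ∧ q.2 = (w.2.2 + 1) % w.1.2.1.length) ∨
      (¬ ((w.2.1, q.1) ∈ w.1.1.2 ∧ (q.1, w.2.1) ∉ w.1.1.2) ∧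
        q.2 ≠ (w.2.2 + 1) % w.1.2.1.length)) (hz.comp (Poly.fst NPC.Poly.id)) ?_
    have f1 : Poly (fun w : ((DG × (List ℕ × List ℕ)) × (ℕ × ℕ)) × (ℕ × ℕ) => w.1.1) :=
      Poly.fst (Poly.fst NPC.Poly.id)
    have p1 : Poly (fun w : ((DG × (List ℕ × List ℕ)) × (ℕ × ℕ)) × (ℕ × ℕ) => w.1.2.1) :=
      Poly.fst (Poly.snd (Poly.fst NPC.Poly.id))
    have p2 : Poly (fun w : ((DG × (List ℕ × List ℕ)) × (ℕ × ℕ)) × (ℕ × ℕ) => w.1.2.2) :=
      Poly.snd (Poly.snd (Poly.fst NPC.Poly.id))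
    have q1 : Poly (fun w : ((DG × (List ℕ × List ℕ)) × (ℕ × ℕ)) × (ℕ × ℕ) => w.2.1) :=
      Poly.fst (Poly.snd NPC.Poly.id)
    have q2 : Poly (fun w : ((DG × (List ℕ × List ℕ)) × (ℕ × ℕ)) × (ℕ × ℕ) => w.2.2) :=
      Poly.snd (Poly.snd NPC.Poly.id)
    have hE' : Poly (fun w : ((DG × (List ℕ × List ℕ)) × (ℕ × ℕ)) × (ℕ × ℕ) => w.1.1.1.2) :=
      hE.comp f1
    have hlen : Poly (fun w : ((DG × (List ℕ × List ℕ)) × (ℕ × ℕ)) × (ℕ × ℕ) =>
        w.1.1.2.1.length) := Poly.length (hl.comp f1)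
    have e1 : PP (fun w : ((DG × (List ℕ × List ℕ)) × (ℕ × ℕ)) × (ℕ × ℕ) =>
        (w.1.2.1, w.2.1) ∈ w.1.1.1.2 ∧ (w.2.1, w.1.2.1) ∉ w.1.1.1.2) :=
      PP.and (PP.mem (Poly.pair p1 q1) hE') (PP.not (PP.mem (Poly.pair q1 p1) hE'))
    have e2 : Poly (fun w : ((DG × (List ℕ × List ℕ)) × (ℕ × ℕ)) × (ℕ × ℕ) =>
        (w.1.2.2 + 1) % w.1.1.2.1.length) :=
      Poly.mod (Poly.add p2 (NPC.Poly.const 1)) hlen
    exact PP.or (PP.and e1 (PP.eq q2 e2)) (PP.and (PP.not e1) (PP.ne q2 e2))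
  · refine PP.ball (r := fun (z : DG × (List ℕ × List ℕ)) x => ∀ y ∈ z.2.2,
      x ∈ z.1.1 ∧ (x, y) ∉ z.1.2) hK ?_
    refine PP.ball (l := fun w : (DG × (List ℕ × List ℕ)) × ℕ => w.1.2.2)
      (r := fun (w : (DG × (List ℕ × List ℕ)) × ℕ) y => w.2 ∈ w.1.1.1 ∧ (w.2, y) ∉ w.1.1.2)
      (hK.comp (Poly.fst NPC.Poly.id)) ?_
    have f1 : Poly (fun w : ((DG × (List ℕ × List ℕ)) × ℕ) × ℕ => w.1.1) :=
      Poly.fst (Poly.fst NPC.Poly.id)
    have f2 : Poly (fun w : ((DG × (List ℕ × List ℕ)) × ℕ) × ℕ => w.1.2) :=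
      Poly.snd (Poly.fst NPC.Poly.id)
    exact PP.and (PP.mem f2 (hV.comp f1)) (PP.not (PP.mem (Poly.pair f2
      (Poly.snd NPC.Poly.id)) (hE.comp f1)))
  · refine PP.ball (r := fun (z : DG × (List ℕ × List ℕ)) x =>
      x ∈ z.2.2 ∨ ∃ y ∈ z.2.2, (x, y) ∈ z.1.2) hV ?_
    refine PP.or (PP.mem (Poly.snd NPC.Poly.id) (hK.comp (Poly.fst NPC.Poly.id))) ?_
    refine PP.bex (l := fun w : (DG × (List ℕ × List ℕ)) × ℕ => w.1.2.2)
      (r := fun (w : (DG × (List ℕ × List ℕ)) × ℕ) y => (w.2, y) ∈ w.1.1.2)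
      (hK.comp (Poly.fst NPC.Poly.id)) ?_
    have f1 : Poly (fun w : ((DG × (List ℕ × List ℕ)) × ℕ) × ℕ => w.1.1) :=
      Poly.fst (Poly.fst NPC.Poly.id)
    have f2 : Poly (fun w : ((DG × (List ℕ × List ℕ)) × ℕ) × ℕ => w.1.2) :=
      Poly.snd (Poly.fst NPC.Poly.id)
    exact PP.mem (Poly.pair f2 (Poly.snd NPC.Poly.id)) (hE.comp f1)

theorem sz_sub {D : DG} {l : List ℕ} (hn : l.Nodup) (h : ∀ x ∈ l, x ∈ D.1) :
    sz l ≤ sz D * (sz D + 1) + 1 := by
  have h1 : l.length ≤ D.1.length := (List.subperm_of_subset hn h).length_le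
  have h2 : D.1.length < sz D.1 := length_lt_sz D.1
  have h3 : sz D = sz D.1 + sz D.2 + 1 := sz_pair _ _
  have h4 := sz_le_length_mul l (sz D) (fun x hx => by
    have := sz_le_of_mem (h x hx)
    omega)
  refine h4.trans ?_
  have : l.length * (sz D + 1) ≤ sz D * (sz D + 1) := Nat.mul_le_mul_right _ (by omega)
  omega

theorem cert_iff (D : DG) : (KernelPerfect D ∧ OneWayHamiltonian D) ↔
    ∃ w : List ℕ × List ℕ, sz w ≤ (Polynomial.C 2 * Polynomial.X * (Polynomial.X + 1) +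
      Polynomial.C 3 : Polynomial ℕ).eval (sz D) ∧ Cert (D, w) := by
  classical
  constructor
  · rintro ⟨hKP, hH⟩
    have hD := hKP.1
    obtain ⟨K, hKS, hind, habs⟩ := (kernelPerfect_iff_kernel hD hH).1 hKP
    obtain ⟨l, hl, hl3, harc⟩ := hH
    have hnd : l.Nodup := hl.symm.nodup hD.1
    have hK1 : ∀ x ∈ K.toList, x ∈ D.1 := fun x hx =>
      List.mem_toFinset.1 (hKS (Finset.mem_toList.1 hx))
    refine ⟨(l, K.toList), ?_, hD, ⟨hnd, fun x hx => hl.mem_iff.1 hx,
      fun x hx => hl.mem_iff.2 hx⟩, hl3, ?_, ?_, ?_⟩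
    · have h1 := sz_sub (D := D) hnd (fun x hx => hl.mem_iff.1 hx)
      have h2 := sz_sub (D := D) K.nodup_toList hK1
      rw [sz_pair]
      simp only [Polynomial.eval_add, Polynomial.eval_mul, Polynomial.eval_C, Polynomial.eval_X,
        Polynomial.eval_one]
      nlinarith
    · rintro ⟨x, i⟩ hx ⟨y, j⟩ hy
      rw [List.mem_zipIdx_iff_getElem?] at hx hy
      obtain ⟨hi, hi'⟩ := List.getElem?_eq_some_iff.1 hx
      obtain ⟨hj, hj'⟩ := List.getElem?_eq_some_iff.1 hy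
      have h1 := harc i j hi hj
      simp only at hi' hj'
      rw [hi', hj'] at h1
      simp only
      by_cases hc : j = (i + 1) % l.length
      · exact Or.inl ⟨h1.2 hc, hc⟩
      · exact Or.inr ⟨fun h => hc (h1.1 h), hc⟩
    · intro x hx y hy
      exact ⟨hK1 x hx, hind x (Finset.mem_toList.1 hx) y (Finset.mem_toList.1 hy)⟩
    · intro x hx
      by_cases hxK : x ∈ K
      · exact Or.inl (Finset.mem_toList.2 hxK)
      · obtain ⟨y, hy, hxy⟩ := habs x (List.mem_toFinset.2 hx) hxK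
        exact Or.inr ⟨y, Finset.mem_toList.2 hy, hxy⟩
  · rintro ⟨⟨l, k⟩, _, hD, ⟨hnd, h1, h2⟩, h3, harc, hind, habs⟩
    simp only at hnd h1 h2 h3 harc hind habs
    have hH : OneWayHamiltonian D := by
      refine ⟨l, ?_, h3, ?_⟩
      · rw [List.perm_ext_iff_of_nodup hnd hD.1]
        exact fun x => ⟨h1 x, h2 x⟩
      · intro i j hi hj
        have h4 := harc (l[i], i) (by rw [List.mem_zipIdx_iff_getElem?]; simp [hi]) (l[j], j)
          (by rw [List.mem_zipIdx_iff_getElem?]; simp [hj])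
        simp only at h4
        unfold OneWay
        tauto
    refine ⟨(kernelPerfect_iff_kernel hD hH).2 ⟨k.toFinset, ?_, ?_, ?_⟩, hH⟩
    · intro x hx
      rw [List.mem_toFinset] at hx ⊢
      exact (hind x hx x hx).1
    · intro x hx y hy
      rw [List.mem_toFinset] at hx hy
      exact (hind x hx y hy).2
    · intro x hx hxK
      rw [List.mem_toFinset] at hx hxK
      rcases habs x hx with h4 | ⟨y, hy, hxy⟩
      · exact absurd h4 hxK
      · exact ⟨y, List.mem_toFinset.2 hy, hxy⟩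

theorem inNP_hamiltonian : InNP (lang fun D : DG => KernelPerfect D ∧ OneWayHamiltonian D) := by
  obtain ⟨R, hR, hR'⟩ := pp_Cert
  refine inNPP_of hR (Polynomial.C 2 * Polynomial.X * (Polynomial.X + 1) + Polynomial.C 3)
    fun D => ?_
  rw [cert_iff D]
  simp only [hR']

/-! ### Consequences -/

theorem reduces_of_solves {𝒦 : Set (List Bool) → Prop} {C : DG → Prop} (h : HardOn 𝒦 C)
    {L₀ : Set (List Bool)} (hs : Solves L₀ C) {L : Set (List Bool)} (hL : 𝒦 L) : Reduces L L₀ := by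
  obtain ⟨f, hf, hf'⟩ := h L hL
  refine ⟨f, hf, fun x => ?_⟩
  obtain ⟨⟨D, hD, h1, h2⟩, h3⟩ := hf' x
  rw [h3, ← hD, bits_mem_lang, hs D h1 h2]

/-- If kernel-perfectness is in `coNP` on a class on which it is `NP`-hard, then `NP = coNP`. -/
theorem collapse_of_np {C : DG → Prop} (h : HardOn InNP C) {L₀ : Set (List Bool)}
    (h₀ : InCoNP L₀) (hs : Solves L₀ C) : ∀ L : Set (List Bool), InNP L ↔ InCoNP L := by
  have key : ∀ L' : Set (List Bool), InNP L' → InCoNP L' := fun L' hL' =>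
    H622R2.InNP.of_reduces (H622R2.Reduces.compl (reduces_of_solves h hs hL')) h₀
  intro L'
  refine ⟨key L', fun hL' => ?_⟩
  have h3 : InNP L'ᶜᶜ := key L'ᶜ hL'
  rwa [compl_compl] at h3

/-- `coNP ⊆ Π₂ᵖ`. -/
theorem inPi2_of_inCoNP {L : Set (List Bool)} (hL : InCoNP L) : InPi2 L := by
  obtain ⟨V, p, hV, hL⟩ := hL
  have hVP := H622R2.poly_of_polyTime hV
  have hx : Poly (fun y : List Bool => (unpair y).1) := Poly.fst poly_unpair
  have hw : Poly (fun y : List Bool => (unpair (unpair y).2).1) :=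
    (Poly.fst poly_unpair).comp (Poly.snd poly_unpair)
  refine ⟨fun y => [!decide ((unpair (unpair y).2).1.length ≤ p.eval (unpair y).1.length) ||
    !decide (V (pairBits (unpair y).1 (unpair (unpair y).2).1) = [true])],
    Polynomial.C 2 * p + Polynomial.C 1, ?_, fun x => ?_⟩
  · refine polyTime_of_poly (Poly.or (Poly.not (Poly.decide_le (Poly.length hw)
      (UPoly.eval (UPoly.length hx) p).toPoly)) (Poly.not (Poly.decide_eq
      (hVP.comp (H622R2.poly_pairBits hx hw)) (NPC.Poly.const [true]))))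
  · have hx : x ∈ L ↔ ∀ w : List Bool, w.length ≤ p.eval x.length →
        V (pairBits x w) ≠ [true] := by
      have := hL x
      rw [Set.mem_compl_iff] at this
      constructor
      · intro h w hw hVw
        exact (this.2 ⟨w, hw, hVw⟩) h
      · intro h
        by_contra hn
        obtain ⟨w, hw, hVw⟩ := this.1 hn
        exact h w hw hVw
    rw [hx]
    simp only [unpair_pairBits, Polynomial.eval_add, Polynomial.eval_mul, Polynomial.eval_C,
      List.cons.injEq, and_true, Bool.or_eq_true, Bool.not_eq_true', decide_eq_false_iff_not,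
      not_le]
    constructor
    · intro h u _
      refine ⟨List.replicate (2 * p.eval x.length + 1) false, by simp, ?_⟩
      by_cases hlen : (unpair (u ++ List.replicate (2 * p.eval x.length + 1) false)).1.length
          ≤ p.eval x.length
      · exact Or.inr (h _ hlen)
      · exact Or.inl (by omega)
    · intro hall w hw
      have hlen : ∀ x w : List Bool, (pairBits x w).length = 2 * x.length + 1 + w.length := by
        intro x w
        unfold pairBits
        simp only [List.length_append, List.length_flatMap, List.length_cons, List.length_nil,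
          List.map_const', List.sum_replicate, smul_eq_mul]
        omega
      obtain ⟨v, _, h1⟩ := hall
        (pairBits w (List.replicate (2 * p.eval x.length - 2 * w.length) false))
        (by rw [hlen, List.length_replicate]; omega)
      have h2 : pairBits w (List.replicate (2 * p.eval x.length - 2 * w.length) false) ++ v =
          pairBits w (List.replicate (2 * p.eval x.length - 2 * w.length) false ++ v) := by
        simp [pairBits]
      rw [h2, unpair_pairBits] at h1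
      rcases h1 with h1 | h1
      · simp only at h1; omega
      · exact h1

theorem doubled_of_hamiltonian {D : DG} (hD : IsDigraph D) (h : OneWayHamiltonian D) :
    OneWayDoubled D := by
  classical
  obtain ⟨l, hl, hl3, harc⟩ := h
  have hnd : l.Nodup := hl.symm.nodup hD.1
  have hmem : ∀ v, v ∈ D.1 ↔ v ∈ l := fun v => hl.symm.mem_iff
  have hlt : ∀ v ∈ D.1, l.idxOf v < l.length := fun v hv =>
    List.idxOf_lt_length_of_mem ((hmem v).1 hv)
  have hone : ∀ i < l.length, (D.1.filter (fun v => decide (l.idxOf v = i))).length = 1 := by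
    intro i hi
    have hsub : (D.1.filter (fun v => decide (l.idxOf v = i))).Subperm [l[i]] := by
      apply List.subperm_of_subset (hD.1.filter _)
      intro x hx
      rw [List.mem_filter] at hx
      have h1 := of_decide_eq_true hx.2
      have h2 := List.getElem_idxOf (hlt x hx.1)
      simp only [h1] at h2
      simp [h2]
    have h1 : (D.1.filter (fun v => decide (l.idxOf v = i))).length ≤ 1 := by
      simpa using hsub.length_le
    have h2 : 0 < (D.1.filter (fun v => decide (l.idxOf v = i))).length := by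
      apply List.length_pos_of_mem (a := l[i])
      rw [List.mem_filter]
      refine ⟨(hmem _).2 (List.getElem_mem hi), ?_⟩
      simp [hnd.idxOf_getElem i hi]
    omega
  refine ⟨l.length, fun v => l.idxOf v, hl3, hlt, ?_, ?_, ?_⟩
  · intro i hi
    have := hone i hi
    constructor
    · rw [this]
    · rw [this]
      norm_num
  · exact hone 0 (by omega)
  · intro u hu v hv
    have h1 := harc (l.idxOf u) (l.idxOf v) (hlt u hu) (hlt v hv)
    rw [List.getElem_idxOf (hlt u hu), List.getElem_idxOf (hlt v hv)] at h1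
    exact h1

theorem hardOn_mono {𝒦 : Set (List Bool) → Prop} {C C' : DG → Prop} (h : HardOn 𝒦 C)
    (hC : ∀ D, IsDigraph D → C D → C' D) : HardOn 𝒦 C' := by
  intro L hL
  obtain ⟨f, hf, hf'⟩ := h L hL
  refine ⟨f, hf, fun x => ⟨?_, (hf' x).2⟩⟩
  obtain ⟨D, hD, h1, h2⟩ := (hf' x).1
  exact ⟨D, hD, h1, hC D h1 h2⟩

theorem solves_self (C : DG → Prop) : Solves (lang KernelPerfect) C :=
  fun _ _ _ => bits_mem_lang

theorem coNP_solves_iff {C : DG → Prop} (h : HardOn InNP C) :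
    (∃ L₀, InCoNP L₀ ∧ Solves L₀ C) ↔ ∀ L : Set (List Bool), InNP L ↔ InCoNP L := by
  constructor
  · rintro ⟨L₀, h1, h2⟩
    exact collapse_of_np h h1 h2
  · intro hc
    exact ⟨_, inCoNP_of_inPi2 (fun L hL => (hc L).1 hL) kernelPerfect_inPi2, solves_self C⟩

theorem np_solves_iff {C : DG → Prop} (h : HardOn InPi2 C) :
    (∃ L₀, InNP L₀ ∧ Solves L₀ C) ↔ ∀ L : Set (List Bool), InNP L ↔ InCoNP L := by
  constructor
  · rintro ⟨L₀, h1, h2⟩
    have key : ∀ L' : Set (List Bool), InCoNP L' → InNP L' := fun L' hL' =>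
      H622R2.InNP.of_reduces (reduces_of_solves h h2 (inPi2_of_inCoNP hL')) h1
    intro L'
    refine ⟨fun hL' => ?_, key L'⟩
    have h3 : InCoNP L'ᶜ := by
      unfold InCoNP
      rwa [compl_compl]
    exact key _ h3
  · intro hc
    exact ⟨_, (hc _).2 (inCoNP_of_inPi2 (fun L hL => (hc L).1 hL) kernelPerfect_inPi2),
      solves_self C⟩

end Pool.Agent.Y410.KP
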